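import Pool.Agent.H.MP_d968d9.C

set_option autoImplicit false

namespace Pool.Agent.Results.MP_bc8021_gt.Products

universe u

def RankLE {X : Type u} (Γ : Set (Set X)) (x : X) (n : ℕ) : Prop :=
  ∀ 𝒜 ⊆ Γ, IsAntichain (· ⊆ ·) 𝒜 → (∀ A ∈ 𝒜, x ∈ A) → 𝒜.encard ≤ n

def Metacompact (X : Type u) [TopologicalSpace X] : Prop :=
  ∀ 𝒰 : Set (Set X), (∀ U ∈ 𝒰, IsOpen U) → ⋃₀ 𝒰 = Set.univ →
    ∃ 𝒱 : Set (Set X), (∀ V ∈ 𝒱, IsOpen V) ∧ ⋃₀ 𝒱 = Set.univ ∧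
      (∀ V ∈ 𝒱, ∃ U ∈ 𝒰, V ⊆ U) ∧ ∀ x, {V ∈ 𝒱 | x ∈ V}.Finite

theorem result :
    (∀ (k : ℕ) (X : Fin k → Type u) [∀ i, TopologicalSpace (X i)] [∀ i, T1Space (X i)],
      (∀ i, ∃ Γ : Set (Set (X i)), TopologicalSpace.IsTopologicalBasis Γ ∧ ∀ x, ∃ n : ℕ, RankLE Γ x n) →
      Metacompact (∀ i, X i)) ∧
    ∃ (X : Type) (_ : TopologicalSpace X), T0Space X ∧
      (∃ Γ : Set (Set X), TopologicalSpace.IsTopologicalBasis Γ ∧ ∀ x, RankLE Γ x 1) ∧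
      ¬Metacompact (Fin 2 → X) := by
  open Pool.Agent.H.MP_d968d9 in
  refine ⟨fun k X _ _ h 𝒰 h1 h2 => h2 ▸ mc (fun i => (h i).imp fun _ h => ⟨h.1, fun x =>
    (h.2 x).imp fun _ h => wd_iff.2 h⟩) 𝒰 h1, N, inferInstance, n_t0, n_rk, fun H => ?_⟩
  obtain ⟨𝒰, a, b, c⟩ := Pool.Agent.H.MP_d968d9.n_nm
  exact c (H 𝒰 a b)

end Pool.Agent.Results.MP_bc8021_gt.Products
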